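import Pool.Agent.W58.GU.Stm

/-!
GU-SEL: selection of a subsequence with small cross terms.
-/

set_option autoImplicit false

namespace Pool.Agent.W929.GU
open Finset Filter Topology
open Pool.Agent.W58.GU

section
variable {P : Par} {X : Type} [NormedAddCommGroup X] [NormedSpace ℝ X]

/-- the coordinates of each vector have small tails -/
theorem tail_small (M : Model P X) (v : X) {η : ℝ} (hη : 0 < η) :
    ∃ N : ℕ, ∀ f, InK P f → (∀ a ∈ f.support, N ≤ a) → |pr f (M.co v)| ≤ η := by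
  classical
  have h := M.hs v
  have h1 : ∀ᶠ S : Finset (ℕ ⊕ ℕ) in atTop, dist (∑ i ∈ S, M.e' i v • M.e i) v < η :=
    (Metric.tendsto_nhds.1 h) η hη
  obtain ⟨S, hS⟩ := h1.exists
  obtain ⟨N, hN⟩ : ∃ N : ℕ, ∀ a, Sum.inr a ∈ S → a < N := by
    refine ⟨(S.sup (Sum.elim (fun _ => 0) (fun a => a))) + 1, fun a ha => ?_⟩
    have := Finset.le_sup (f := Sum.elim (fun _ => 0) (fun a => a)) ha
    simp only [Sum.elim_inr] at this
    omega
  refine ⟨N, fun f hf hfs => ?_⟩
  have e1 : M.co v = M.co (v - ∑ i ∈ S, M.e' i v • M.e i) + M.co (∑ i ∈ S, M.e' i v • M.e i) := by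
    rw [← M.co_add]; congr 1; abel
  have e2 : pr f (M.co (∑ i ∈ S, M.e' i v • M.e i)) = 0 := by
    refine pr_eq_zero (fun a ha => ?_)
    have haN := hfs a ha
    show M.e' (Sum.inr a) (∑ i ∈ S, M.e' i v • M.e i) = 0
    rw [map_sum]
    refine Finset.sum_eq_zero (fun i hi => ?_)
    rw [map_smul, M.bi]
    have : Sum.inr a ≠ i := by
      intro h
      rw [← h] at hi
      exact absurd (hN a hi) (by omega)
    simp [this]
  rw [e1, pr_add_right, e2, add_zero]
  refine (M.abs_pr_co _ hf).trans ?_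
  rw [dist_eq_norm, norm_sub_rev] at hS
  exact hS.le

theorem tail_small' (M : Model P X) (v : ℕ → X) (m : ℕ) {η : ℝ} (hη : 0 < η) :
    ∃ N : ℕ, ∀ j ≤ m, ∀ f, InK P f → (∀ a ∈ f.support, N ≤ a) → |pr f (M.co (v j))| ≤ η := by
  choose N hN using fun j => tail_small M (v j) hη
  refine ⟨(range (m + 1)).sup N, fun j hj f hf hfs => hN j f hf (fun a ha => ?_)⟩
  exact le_trans (Finset.le_sup (f := N) (mem_range.2 (by omega))) (hfs a ha)

theorem abs_coord_le {f : ℕ →₀ ℚ} (h : InK P f) (a : ℕ) : |(f a : ℝ)| ≤ 1 := by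
  obtain ⟨w, hw⟩ := h
  rw [← Rat.cast_abs]
  exact_mod_cast hw.coord.1 a

/-- a functional supported below `N` -/
theorem abs_pr_le_range {f : ℕ →₀ ℚ} (h : InK P f) (c : ℕ → ℝ) (N : ℕ)
    (hs : ∀ a ∈ f.support, a < N) : |pr f c| ≤ ∑ a ∈ range N, |c a| := by
  have hsub : f.support ⊆ range N := fun a ha => mem_range.2 (hs a ha)
  rw [pr_eq f c hsub]
  refine (Finset.abs_sum_le_sum_abs _ _).trans (Finset.sum_le_sum fun a _ => ?_)
  rw [abs_mul]
  exact mul_le_of_le_one_left (abs_nonneg _) (abs_coord_le h a)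

end

theorem sel (hshr : S_SHR) : S_SEL := by
  classical
  intro P X _ _ M T x g δ C hδ hsucc hC hg hlow hdisj ε hε
  set y : ℕ → X := fun k => T (M.emb (x k)) with hy
  -- supports go to infinity
  have hne : ∀ k, (x k).support.Nonempty := by
    intro k
    by_contra hcon
    rw [Finset.not_nonempty_iff_eq_empty, Finsupp.support_eq_empty] at hcon
    have h := hlow k
    rw [hcon, M.emb_zero, map_zero] at h
    have e : M.co (0 : X) = 0 := by funext a; simp [Model.co]
    rw [e, pr_zero_right] at h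
    linarith
  have hinf : ∀ k, ∀ a ∈ (x k).support, k ≤ a := by
    intro k
    induction k with
    | zero => intro a _; omega
    | succ k ih =>
      intro a ha
      obtain ⟨b, hb⟩ := hne k
      have h1 := ih b hb
      have h2 := hsucc k (k + 1) (by omega) b hb a ha
      omega
  -- coordinates tend to zero
  have hco : ∀ a, Tendsto (fun k => |M.co (y k) a|) atTop (𝓝 0) := by
    intro a
    rw [Metric.tendsto_atTop]
    intro η hη
    set C' := max C 1 with hC'
    have hC'1 : 1 ≤ C' := le_max_right _ _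
    obtain ⟨N, hN⟩ := hshr P X M ((M.e' (Sum.inr a)).comp T) (η / (2 * C')) (by positivity)
    refine ⟨N, fun k hk => ?_⟩
    have hb : Bd P 1 (C'⁻¹ • x k) := by
      intro f hf
      have : pr f (C'⁻¹ • x k : ℕ →₀ ℝ) = C'⁻¹ * pr f (x k) := by
        rw [← pr_smul_right]; rfl
      rw [this, abs_mul, abs_of_pos (by positivity)]
      have h1 : |pr f (x k)| ≤ C' := (hC k f hf).trans (le_max_left _ _)
      calc C'⁻¹ * |pr f (x k)| ≤ C'⁻¹ * C' := by gcongr
        _ = 1 := inv_mul_cancel₀ (by positivity)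
    have h2 := hN (C'⁻¹ • x k) (fun b hb => by
      have := hinf k b (Finsupp.support_smul hb)
      omega) hb
    rw [M.emb_smul, ContinuousLinearMap.comp_apply, map_smul, map_smul, smul_eq_mul, abs_mul,
      abs_of_pos (by positivity : 0 < C'⁻¹)] at h2
    have h3 : |M.co (y k) a| ≤ η / 2 := by
      show |M.e' (Sum.inr a) (T (M.emb (x k)))| ≤ η / 2
      have h4 : C' * (C'⁻¹ * |M.e' (Sum.inr a) (T (M.emb (x k)))|) ≤ C' * (η / (2 * C')) := by
        gcongr
      rw [mul_inv_cancel_left₀ (by positivity)] at h4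
      have e : C' * (η / (2 * C')) = η / 2 := by field_simp
      rwa [e] at h4
    rw [Real.dist_eq, sub_zero, abs_abs]
    linarith
  have hcos : ∀ N : ℕ, Tendsto (fun k => ∑ a ∈ range N, |M.co (y k) a|) atTop (𝓝 0) := by
    intro N
    have h := tendsto_finsetSum (range N) (fun a _ => hco a)
    simpa using h
  -- choice of the next index
  have hF : ∀ (N p : ℕ) (η : ℝ), ∃ φ : ℕ, 0 < η → p ≤ φ ∧ (∀ a ∈ (x φ).support, N ≤ a) ∧
      ∑ a ∈ range N, |M.co (y φ) a| ≤ η := by
    intro N p η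
    by_cases hη : 0 < η
    · have h1 := (tendsto_order.1 (hcos N)).2 η hη
      obtain ⟨φ, h2, h3⟩ := (h1.and (eventually_ge_atTop (max N p))).exists
      refine ⟨φ, fun _ => ⟨(le_max_right _ _).trans h3, fun a ha => ?_, h2.le⟩⟩
      exact ((le_max_left _ _).trans h3).trans (hinf φ a ha)
    · exact ⟨0, fun h => absurd h hη⟩
  choose F hF using hF
  have hH : ∀ (N φ : ℕ) (η : ℝ), ∃ N' : ℕ, 0 < η → N < N' ∧ (∀ a ∈ (x φ).support, a < N') ∧
      (∀ a ∈ (g φ).support, a < N') ∧ ∀ j ≤ φ, ∀ f, InK P f → (∀ a ∈ f.support, N' ≤ a) →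
        |pr f (M.co (y j))| ≤ η := by
    intro N φ η
    by_cases hη : 0 < η
    · obtain ⟨N1, hN1⟩ := tail_small' M y φ hη
      refine ⟨N + (x φ).support.sup id + (g φ).support.sup id + N1 + 1, fun _ =>
        ⟨by omega, fun a ha => ?_, fun a ha => ?_, fun j hj f hf hfs => hN1 j hj f hf
          (fun a ha => ?_)⟩⟩
      · have := Finset.le_sup (f := id) ha
        simp only [id] at this ⊢
        omega
      · have := Finset.le_sup (f := id) ha
        simp only [id] at this ⊢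
        omega
      · have := hfs a ha
        omega
    · exact ⟨0, fun h => absurd h hη⟩
  choose H hH using hH
  set e : ℕ → ℝ := fun k => ε / 4 ^ (k + 1) with he
  have he0 : ∀ k, 0 < e k := fun k => by rw [he]; positivity
  obtain ⟨φ, N, hφm, hNm, hF', hH'⟩ : ∃ φ N : ℕ → ℕ, StrictMono φ ∧ StrictMono N ∧
      (∀ k, (∀ a ∈ (x (φ k)).support, N k ≤ a) ∧
        ∑ a ∈ range (N k), |M.co (y (φ k)) a| ≤ e k) ∧
      (∀ k, N k < N (k + 1) ∧ (∀ a ∈ (x (φ k)).support, a < N (k + 1)) ∧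
      (∀ a ∈ (g (φ k)).support, a < N (k + 1)) ∧ ∀ j ≤ φ k, ∀ f, InK P f →
        (∀ a ∈ f.support, N (k + 1) ≤ a) → |pr f (M.co (y j))| ≤ e k) := by
    let st : ℕ → ℕ × ℕ := fun k => Nat.rec (0, 0) (fun k s =>
      (H s.1 (F s.1 s.2 (e k)) (e k), F s.1 s.2 (e k) + 1)) k
    have hps : ∀ k, (st (k + 1)).2 = F (st k).1 (st k).2 (e k) + 1 := fun k => rfl
    have hNs : ∀ k, (st (k + 1)).1 = H (st k).1 (F (st k).1 (st k).2 (e k)) (e k) :=
      fun k => rfl
    clear_value st
    refine ⟨fun k => F (st k).1 (st k).2 (e k), fun k => (st k).1, ?_, ?_, ?_, ?_⟩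
    · refine strictMono_nat_of_lt_succ (fun k => ?_)
      have h1 := (hF (st (k + 1)).1 (st (k + 1)).2 (e (k + 1)) (he0 (k + 1))).1
      have h2 := hps k
      omega
    · refine strictMono_nat_of_lt_succ (fun k => ?_)
      have h1 := (hH (st k).1 (F (st k).1 (st k).2 (e k)) (e k) (he0 k)).1
      rw [← hNs] at h1
      exact h1
    · exact fun k => (hF (st k).1 (st k).2 (e k) (he0 k)).2
    · intro k
      have h1 := hH (st k).1 (F (st k).1 (st k).2 (e k)) (e k) (he0 k)
      rw [← hNs] at h1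
      exact h1
  -- comparison of the errors
  have hcmp : ∀ k l m : ℕ, k + l ≤ 2 * m → ε / 4 ^ m ≤ ε / 2 ^ (k + l) := by
    intro k l m h
    have h1 : (2 : ℝ) ^ (k + l) ≤ 4 ^ m := by
      calc (2 : ℝ) ^ (k + l) ≤ 2 ^ (2 * m) := pow_le_pow_right₀ (by norm_num) h
        _ = 4 ^ m := by rw [pow_mul]; norm_num
    exact div_le_div_of_nonneg_left hε.le (by positivity) h1
  set f : ℕ → (ℕ →₀ ℚ) := fun k => rst (Set.Ici (N k)) (g (φ k)) with hf
  have hfs : ∀ k, ∀ a ∈ (f k).support, N k ≤ a ∧ a ∈ (g (φ k)).support := by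
    intro k a ha
    simp only [hf, rst, Finsupp.support_filter, Finset.mem_filter, Set.mem_Ici] at ha
    exact ⟨ha.2, ha.1⟩
  have hfK : ∀ k, InK P (f k) := fun k => (hg (φ k)).rst _
  refine ⟨φ, N, f, hφm, hNm.monotone, fun k => ⟨hfK k, fun a ha => ?_, fun a ha => ?_, ?_, ?_, ?_⟩⟩
  · exact ⟨(hfs k a ha).1, (hH' k).2.2.1 a (hfs k a ha).2⟩
  · exact ⟨(hF' k).1 a ha, (hH' k).2.1 a ha⟩
  · exact Finset.disjoint_of_subset_left (fun a ha => (hfs k a ha).2) (hdisj (φ k))
  · have h1 : pr (g (φ k)) (M.co (y (φ k))) = pr (f k) (M.co (y (φ k))) +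
        pr (rst (Set.Iio (N k)) (g (φ k))) (M.co (y (φ k))) := by
      rw [← pr_add_left]
      congr 1
      ext a
      by_cases ha : N k ≤ a
      · simp [hf, rst, ha]
      · simp [hf, rst, ha, not_le.1 ha]
    have h2 : |pr (rst (Set.Iio (N k)) (g (φ k))) (M.co (y (φ k)))| ≤
        ∑ a ∈ range (N k), |M.co (y (φ k)) a| := by
      refine abs_pr_le_range ((hg (φ k)).rst _) _ _ (fun a ha => ?_)
      simp only [rst, Finsupp.support_filter, Finset.mem_filter, Set.mem_Iio] at ha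
      exact ha.2
    have h3 := (hF' k).2
    have h4 : e k ≤ ε := by
      have h := hcmp 0 0 (k + 1) (by omega)
      simpa using h
    have h5 := hlow (φ k)
    have h6 := le_abs_self (pr (rst (Set.Iio (N k)) (g (φ k))) (M.co (y (φ k))))
    show δ - ε ≤ pr (f k) (M.co (y (φ k)))
    have h7 : δ < pr (g (φ k)) (M.co (y (φ k))) := h5
    linarith
  · intro l hl
    show |pr (f k) (M.co (y (φ l)))| ≤ ε / 2 ^ (k + l)
    rcases lt_or_gt_of_ne hl with h | h
    · obtain ⟨k', rfl⟩ : ∃ k', k = k' + 1 := ⟨k - 1, by omega⟩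
      have h1 := (hH' k').2.2.2 (φ l) (hφm.monotone (by omega)) (f (k' + 1)) (hfK _)
        (fun a ha => (hfs _ a ha).1)
      exact h1.trans (hcmp _ _ _ (by omega))
    · have h1 : |pr (f k) (M.co (y (φ l)))| ≤ ∑ a ∈ range (N l), |M.co (y (φ l)) a| := by
        refine abs_pr_le_range (hfK k) _ _ (fun a ha => ?_)
        exact lt_of_lt_of_le ((hH' k).2.2.1 a (hfs k a ha).2) (hNm.monotone (by omega))
      exact (h1.trans (hF' l).2).trans (hcmp _ _ _ (by omega))

end Pool.Agent.W929.GU
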